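import Mathlib
import Pool.Agent.Helper947.Geo.A5

set_option autoImplicit false
open scoped LinearAlgebra.Projectivization
open MvPolynomial

namespace Pool.Agent.Results.MP_a5c67c_ag.NoLinearlyGeneral

/-- The projection of `z` from `P` to the hyperplane `H = {x_n = 0}` of `ℙ^n`, in the coordinates
`x_0, …, x_{n-1}` of `H`: these are the first `n` coordinates of `P_n • z - z_n • P`. -/
def proj {n : ℕ} (P z : Fin (n + 1) → ℂ) : Fin n → ℂ :=
  fun i => P (Fin.last n) * z i.castSucc - z (Fin.last n) * P i.castSucc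

/-- `I` is the homogeneous ideal of the reduced set `Z_P`: it consists of the polynomials which
vanish on all vectors representing the points of `Z_P`. -/
def IsIdealOfProjection {n : ℕ} (Z : Finset (ℙ ℂ (Fin (n + 1) → ℂ))) (P : Fin (n + 1) → ℂ)
    (I : Ideal (MvPolynomial (Fin n) ℂ)) : Prop :=
  ∀ f : MvPolynomial (Fin n) ℂ, f ∈ I ↔ ∀ z ∈ Z, ∀ t : ℂ, eval (t • proj P z.rep) f = 0

/-- `Z` is geproci: for a general point `P` (outside of `H` and of the zero set of some nonzero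
polynomial `h`) the homogeneous ideal of the reduced set `Z_P` is generated by a regular sequence
of `n - 1` forms. -/
def IsGeproci {n : ℕ} (Z : Finset (ℙ ℂ (Fin (n + 1) → ℂ))) : Prop :=
  ∃ h : MvPolynomial (Fin (n + 1)) ℂ, h ≠ 0 ∧
    ∀ P : Fin (n + 1) → ℂ, P (Fin.last n) ≠ 0 → eval P h ≠ 0 →
      ∃ F : Fin (n - 1) → MvPolynomial (Fin n) ℂ, (∀ i, ∃ a, (F i).IsHomogeneous a) ∧
        RingTheory.Sequence.IsRegular (MvPolynomial (Fin n) ℂ) (List.ofFn F) ∧
        IsIdealOfProjection Z P (Ideal.span (Set.range F))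

/-- `Z` is contained in a hyperplane. -/
def InHyperplane {n : ℕ} (Z : Finset (ℙ ℂ (Fin (n + 1) → ℂ))) : Prop :=
  ∃ c : Fin (n + 1) → ℂ, c ≠ 0 ∧ ∀ z ∈ Z, ∑ i, c i * z.rep i = 0

/-- `Z` is a grid: the set of intersection points of `a` pairwise skew lines with `b` pairwise
skew lines, where each line of the first family meets each line of the second family in exactly
one point. Lines are given by subspaces of dimension two. -/
def IsGrid {n : ℕ} (Z : Finset (ℙ ℂ (Fin (n + 1) → ℂ))) : Prop :=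
  ∃ (a b : ℕ) (A : Fin a → Submodule ℂ (Fin (n + 1) → ℂ))
    (B : Fin b → Submodule ℂ (Fin (n + 1) → ℂ)), a ≤ b ∧
    (∀ i, Module.finrank ℂ (A i) = 2) ∧ (∀ j, Module.finrank ℂ (B j) = 2) ∧
    (∀ i i', i ≠ i' → A i ⊓ A i' = ⊥) ∧ (∀ j j', j ≠ j' → B j ⊓ B j' = ⊥) ∧
    (∀ i j, Module.finrank ℂ ↥(A i ⊓ B j) = 1) ∧ Z.card = a * b ∧
    ∀ z : ℙ ℂ (Fin (n + 1) → ℂ), z ∈ Z ↔ ∃ i j, z.rep ∈ A i ∧ z.rep ∈ B j

theorem indep_of_general {n : ℕ} (Z : Finset (ℙ ℂ (Fin (n + 1) → ℂ)))
    (hgen : ∀ S ⊆ Z, S.card = n + 1 → ¬ InHyperplane S)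
    (S : Finset (ℙ ℂ (Fin (n + 1) → ℂ))) (hS : S ⊆ Z) (hc : S.card = n + 1) :
    LinearIndependent ℂ (fun z : S => (z : ℙ ℂ (Fin (n + 1) → ℂ)).rep) := by
  classical
  have e : Fin (n + 1) ≃ S := (Finset.equivFinOfCardEq hc).symm
  have h1 : LinearIndependent ℂ (fun k : Fin (n + 1) => ((e k : S) : ℙ ℂ (Fin (n + 1) → ℂ)).rep) := by
    have h2 : LinearIndependent ℂ (Matrix.of
        (fun k : Fin (n + 1) => ((e k : S) : ℙ ℂ (Fin (n + 1) → ℂ)).rep)).row := by
      rw [Matrix.linearIndependent_rows_iff_isUnit, ← Matrix.mulVec_injective_iff_isUnit]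
      intro c c' hcc
      by_contra hne
      apply hgen S hS hc
      refine ⟨c - c', sub_ne_zero.mpr hne, ?_⟩
      intro z hz
      have h3 := congrFun hcc (e.symm ⟨z, hz⟩)
      simp only [Matrix.mulVec, dotProduct, Matrix.of_apply, Equiv.apply_symm_apply] at h3
      simp only [Pi.sub_apply, sub_mul, Finset.sum_sub_distrib]
      rw [sub_eq_zero]
      simpa only [mul_comm] using h3
    exact h2
  have h4 := h1.comp e.symm e.symm.injective
  convert h4 using 1
  funext z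
  simp

/-- A geproci set of points of `ℙ^n`, `n ≥ 3`, which is neither contained in a hyperplane nor (for
`n = 3`) a grid contains `n + 1` points lying in a common hyperplane: there are no linearly general
nontrivial geproci sets. -/
theorem result : ∀ n : ℕ, 3 ≤ n → ∀ Z : Finset (ℙ ℂ (Fin (n + 1) → ℂ)),
    IsGeproci Z → ¬ InHyperplane Z → ¬ (n = 3 ∧ IsGrid Z) →
      ∃ S ⊆ Z, S.card = n + 1 ∧ InHyperplane S := by
  classical
  intro n hn Z hZ hdeg hgrid
  by_contra hcon
  push Not at hcon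
  obtain ⟨N, rfl⟩ : ∃ N, n = N + 1 := ⟨n - 1, by omega⟩
  have hspan : ∀ c : Fin (N + 1 + 1) → ℂ, (∀ z ∈ Z, ∑ i, c i * z.rep i = 0) → c = 0 := by
    intro c hc
    by_contra hne
    exact hdeg ⟨c, hne, hc⟩
  -- the span of the representatives
  have hsp : Submodule.span ℂ (Set.range (fun z : Z => (z : ℙ ℂ (Fin (N + 1 + 1) → ℂ)).rep)) = ⊤ := by
    by_contra hne
    obtain ⟨f, hf0, hf⟩ := Submodule.exists_le_ker_of_lt_top _ (lt_top_iff_ne_top.mpr hne)
    apply hf0
    have h1 : (fun i => f (Pi.single i 1)) = (0 : Fin (N + 1 + 1) → ℂ) := by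
      apply hspan
      intro z hz
      have h2 : f z.rep = 0 := by
        have := hf (Submodule.subset_span ⟨⟨z, hz⟩, rfl⟩)
        simpa using this
      have h3 : z.rep = ∑ i, z.rep i • (Pi.single i (1 : ℂ) : Fin (N + 1 + 1) → ℂ) := by
        funext j
        simp [Finset.sum_apply, Pi.single_apply]
      rw [h3, map_sum] at h2
      simp only [map_smul, smul_eq_mul] at h2
      rw [← h2]
      apply Finset.sum_congr rfl
      intro i _
      ring
    apply LinearMap.pi_ext'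
    intro i
    ext
    simpa using congrFun h1 i
  have hcard : N + 1 + 1 ≤ Z.card := by
    have h1 := finrank_range_le_card (R := ℂ) (fun z : Z => (z : ℙ ℂ (Fin (N + 1 + 1) → ℂ)).rep)
    unfold Set.finrank at h1
    rw [hsp, finrank_top] at h1
    simpa using h1
  have hgen : ∀ s : Finset Z, s.card ≤ N + 2 →
      LinearIndependent ℂ (fun k : s => ((k : Z) : ℙ ℂ (Fin (N + 1 + 1) → ℂ)).rep) := by
    intro s hs
    let S₀ : Finset (ℙ ℂ (Fin (N + 1 + 1) → ℂ)) := s.map ⟨Subtype.val, Subtype.val_injective⟩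
    have hS₀ : S₀ ⊆ Z := by
      intro z hz
      simp only [S₀, Finset.mem_map, Function.Embedding.coeFn_mk] at hz
      obtain ⟨k, _, rfl⟩ := hz
      exact k.2
    have hS₀c : S₀.card = s.card := Finset.card_map _
    obtain ⟨T, hT1, hT2, hT3⟩ := Finset.exists_subsuperset_card_eq hS₀ (by rw [hS₀c]; exact hs)
      (by omega : N + 2 ≤ Z.card)
    have h1 := indep_of_general Z hcon T hT2 hT3
    have hmem : ∀ k : s, ((k : Z) : ℙ ℂ (Fin (N + 1 + 1) → ℂ)) ∈ T := by
      intro k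
      apply hT1
      simp only [S₀, Finset.mem_map, Function.Embedding.coeFn_mk]
      exact ⟨k.1, k.2, rfl⟩
    exact h1.comp (fun k : s => (⟨((k : Z) : ℙ ℂ (Fin (N + 1 + 1) → ℂ)), hmem k⟩ : T)) (by
      intro a b hab
      simp only [Subtype.mk.injEq] at hab
      exact Subtype.ext (Subtype.ext hab))
  obtain ⟨h, hh, hP⟩ := hZ
  obtain ⟨hN, hK⟩ := Helper947.Geo.geo_general (N := N) (by omega)
    (fun z : Z => (z : ℙ ℂ (Fin (N + 1 + 1) → ℂ)).rep) hgen hsp h hh (by
      intro P hP1 hP2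
      obtain ⟨F, hF1, hF2, hF3⟩ := hP P hP1 hP2
      refine ⟨F, hF1, Helper947.Geo.isReg_of_isRegular F hF2, ?_⟩
      intro f
      rw [hF3 f]
      constructor
      · intro h1 k t
        exact h1 k.1 k.2 t
      · intro h1 z hz t
        exact h1 ⟨z, hz⟩ t)
  subst hN
  apply hgrid
  refine ⟨rfl, ?_⟩
  have hc4 : Z.card = 4 := by simpa using hK
  obtain ⟨L, M, h1, h2, h3, h4, h5, h6⟩ := Helper947.Geo.grid_four_strong Z hc4 hspan
  exact ⟨2, 2, L, M, le_refl _, h1, h2, h3, h4, h5, hc4, h6⟩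

end Pool.Agent.Results.MP_a5c67c_ag.NoLinearlyGeneral
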